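import Pool.Agent.K1H20.RS.Stm

/-! Project RS, piece DIR: the twisted form is not a divergence. -/

set_option autoImplicit false
set_option linter.dupNamespace false

namespace Pool.Agent.K1H68.RS

open MvPolynomial Pool.Agent.K1H20.RS

variable {n : ℕ}

/-- rising factorials -/
noncomputable def lamv (r : ℂ) (c : Fin (n + 1) →₀ ℕ) : ℂ :=
  ∏ i, ∏ j ∈ Finset.range (c i), (r + j)

/-- the Dirichlet functional -/
noncomputable def Lam (r : ℂ) : MvPolynomial (Fin (n + 1)) ℂ →ₗ[ℂ] ℂ :=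
  (basisMonomials (Fin (n + 1)) ℂ).constr ℂ (lamv r)

theorem Lam_monomial (r : ℂ) (c : Fin (n + 1) →₀ ℕ) (a : ℂ) :
    Lam r (monomial c a) = a * lamv r c := by
  have h1 : Lam r (monomial c (1 : ℂ)) = lamv r c := by
    have := (basisMonomials (Fin (n + 1)) ℂ).constr_basis ℂ (lamv r) c
    rwa [coe_basisMonomials] at this
  have h2 : (monomial c a : MvPolynomial (Fin (n + 1)) ℂ) = a • monomial c (1 : ℂ) := by
    rw [smul_monomial, smul_eq_mul, mul_one]
  rw [h2, map_smul, h1, smul_eq_mul]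

theorem lamv_succ (r : ℂ) (k : Fin (n + 1)) (c : Fin (n + 1) →₀ ℕ) :
    lamv r (Finsupp.single k 1 + c) = (c k + r) * lamv r c := by
  unfold lamv
  rw [← Finset.mul_prod_erase Finset.univ _ (Finset.mem_univ k),
    ← Finset.mul_prod_erase Finset.univ (fun i => ∏ j ∈ Finset.range (c i), (r + j))
      (Finset.mem_univ k)]
  have h1 : (Finsupp.single k 1 + c : Fin (n + 1) →₀ ℕ) k = c k + 1 := by
    rw [Finsupp.add_apply, Finsupp.single_eq_same, add_comm]
  have h2 : ∏ i ∈ Finset.univ.erase k,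
      ∏ j ∈ Finset.range ((Finsupp.single k 1 + c : Fin (n + 1) →₀ ℕ) i), (r + j) =
      ∏ i ∈ Finset.univ.erase k, ∏ j ∈ Finset.range (c i), (r + (j : ℂ)) := by
    refine Finset.prod_congr rfl fun i hi => ?_
    have : (Finsupp.single k 1 + c : Fin (n + 1) →₀ ℕ) i = c i := by
      rw [Finsupp.add_apply, Finsupp.single_eq_of_ne (Finset.ne_of_mem_erase hi), zero_add]
    rw [this]
  rw [h1, h2, Finset.prod_range_succ]
  ring

theorem Lam_X_mul (r : ℂ) (k : Fin (n + 1)) (c : Fin (n + 1) →₀ ℕ) (a : ℂ) :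
    Lam r (X k * monomial c a) = (c k + r) * Lam r (monomial c a) := by
  have h1 : (X k * monomial c a : MvPolynomial (Fin (n + 1)) ℂ) =
      monomial (Finsupp.single k 1 + c) a := by
    rw [X, monomial_mul, one_mul]
  rw [h1, Lam_monomial, Lam_monomial, lamv_succ]
  ring

/-- the sum of the variables -/
noncomputable def LL (n : ℕ) : MvPolynomial (Fin (n + 1)) ℂ := ∑ i, X i

/-- the product of the variables -/
noncomputable def YY (n : ℕ) : MvPolynomial (Fin (n + 1)) ℂ := ∏ i, X i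

theorem Lam_LL (r : ℂ) {q : ℕ} {Q : MvPolynomial (Fin (n + 1)) ℂ} (hQ : Q.IsHomogeneous q) :
    Lam r (LL n * Q) = (q + (n + 1) * r) * Lam r Q := by
  have h1 : Q = ∑ c ∈ Q.support, monomial c (coeff c Q) := Q.as_sum
  have h2 : Lam r (LL n * Q) =
      ∑ c ∈ Q.support, (q + (n + 1) * r) * Lam r (monomial c (coeff c Q)) := by
    conv_lhs => rw [h1]
    rw [Finset.mul_sum, map_sum]
    refine Finset.sum_congr rfl fun c hc => ?_
    unfold LL
    rw [Finset.sum_mul, map_sum]
    simp only [Lam_X_mul]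
    rw [← Finset.sum_mul]
    congr 1
    rw [Finset.sum_add_distrib, Finset.sum_const, Finset.card_univ, Fintype.card_fin,
      nsmul_eq_mul]
    push_cast
    congr 1
    have h3 : Finsupp.weight 1 c = q := hQ (mem_support_iff.1 hc)
    rw [Finsupp.weight_apply, Finsupp.sum_fintype _ _ (fun i => by simp)] at h3
    rw [← h3]
    push_cast
    simp
  rw [h2, ← Finset.mul_sum, ← map_sum, ← h1]

theorem LL_hom : (LL n).IsHomogeneous 1 :=
  IsHomogeneous.sum _ _ _ fun i _ => isHomogeneous_X ℂ i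

theorem YY_hom : (YY n).IsHomogeneous (n + 1) := by
  have := IsHomogeneous.prod Finset.univ (fun i : Fin (n + 1) => (X i : MvPolynomial _ ℂ))
    (fun _ => 1) fun i _ => isHomogeneous_X ℂ i
  simpa [YY] using this

theorem Lam_LL_pow (r : ℂ) {q : ℕ} {Q : MvPolynomial (Fin (n + 1)) ℂ} (hQ : Q.IsHomogeneous q)
    (j : ℕ) : Lam r (LL n ^ j * Q) = (∏ i ∈ Finset.range j, ((q : ℂ) + i + (n + 1) * r)) * Lam r Q := by
  induction j with
  | zero => simp
  | succ j ih =>
    have h1 : (LL n ^ j * Q).IsHomogeneous (1 * j + q) := (LL_hom.pow j).mul hQ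
    rw [pow_succ', mul_assoc, Lam_LL r h1, ih, Finset.prod_range_succ]
    push_cast
    ring

/-- a squarefree monomial without `X k` -/
theorem prod_mono (k : Fin (n + 1)) (S : Finset (Fin (n + 1))) (hk : k ∉ S) :
    ∃ u : Fin (n + 1) →₀ ℕ, u k = 0 ∧
      ∏ i ∈ S, (X i : MvPolynomial (Fin (n + 1)) ℂ) = monomial u 1 := by
  classical
  induction S using Finset.induction_on with
  | empty => exact ⟨0, rfl, by simp⟩
  | insert i S hi ih =>
    obtain ⟨u, hu, hS⟩ := ih (fun h => hk (Finset.mem_insert_of_mem h))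
    refine ⟨Finsupp.single i 1 + u, ?_, ?_⟩
    · have : i ≠ k := by
        rintro rfl
        exact hk (Finset.mem_insert_self _ _)
      rw [Finsupp.add_apply, Finsupp.single_eq_of_ne (Ne.symm this), hu]
    · rw [Finset.prod_insert hi, hS, X, monomial_mul, one_mul]

theorem YY_split (k : Fin (n + 1)) : ∃ u : Fin (n + 1) →₀ ℕ, u k = 0 ∧
    YY n = X k * monomial u 1 ∧ pderiv k (YY n) = monomial u 1 := by
  classical
  obtain ⟨u, hu, hS⟩ := prod_mono k (Finset.univ.erase k) (Finset.notMem_erase _ _)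
  have h1 : YY n = X k * monomial u 1 := by
    unfold YY
    rw [← Finset.mul_prod_erase Finset.univ _ (Finset.mem_univ k), hS]
  refine ⟨u, hu, h1, ?_⟩
  have h2 : pderiv k (monomial u (1 : ℂ)) = 0 := by
    rw [pderiv_monomial, hu]
    simp
  rw [h1, Derivation.leibniz, h2, pderiv_X_self]
  simp

/-- partial integration -/
theorem Lam_part (r : ℂ) (k : Fin (n + 1)) (H : MvPolynomial (Fin (n + 1)) ℂ) :
    Lam r (YY n * pderiv k H + C r * pderiv k (YY n) * H) = Lam r (YY n * H) := by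
  obtain ⟨u, hu, h1, h2⟩ := YY_split (n := n) k
  rw [h2]
  induction H using MvPolynomial.induction_on' with
  | monomial h a =>
    have e1 : YY n * pderiv k (monomial h a) = C (h k : ℂ) * monomial (u + h) a := by
      rw [h1]
      have : X k * monomial u (1 : ℂ) * pderiv k (monomial h a) =
          monomial u (1 : ℂ) * (X k * pderiv k (monomial h a)) := by ring
      rw [this, X_mul_pderiv_monomial, nsmul_eq_mul]
      have e2 : ((h k : ℕ) : MvPolynomial (Fin (n + 1)) ℂ) = C (h k : ℂ) := by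
        rw [map_natCast]
      have e3 : monomial u (1 : ℂ) * monomial h a = monomial (u + h) a := by
        rw [monomial_mul, one_mul]
      rw [e2, ← e3]
      ring
    have e4 : C r * monomial u (1 : ℂ) * monomial h a = C r * monomial (u + h) a := by
      rw [mul_assoc, monomial_mul, one_mul]
    have e5 : YY n * monomial h a = X k * monomial (u + h) a := by
      rw [h1, mul_assoc, monomial_mul, one_mul]
    rw [e1, e4, e5, Lam_X_mul, ← add_mul, ← C_add, C_mul', map_smul, smul_eq_mul]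
    congr 1
    rw [Finsupp.add_apply, hu, zero_add]
  | add p q hp hq =>
    have e1 : YY n * pderiv k (p + q) + C r * monomial u (1 : ℂ) * (p + q) =
        (YY n * pderiv k p + C r * monomial u (1 : ℂ) * p) +
          (YY n * pderiv k q + C r * monomial u (1 : ℂ) * q) := by
      rw [map_add]; ring
    rw [e1, map_add, hp, hq, mul_add, map_add]

theorem pderiv_LL (k : Fin (n + 1)) : pderiv k (LL n) = 1 := by
  classical
  unfold LL
  rw [map_sum, Finset.sum_eq_single k]
  · exact pderiv_X_self k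
  · intro i _ hi
    exact pderiv_X_of_ne hi
  · intro h
    exact absurd (Finset.mem_univ k) h

theorem YY_pow (N : ℕ) : (YY n) ^ N =
    monomial (Finsupp.equivFunOnFinite.symm fun _ => N) (1 : ℂ) := by
  rw [monomial_eq, C_1, one_mul, Finsupp.prod_fintype _ _ (fun i => pow_zero _)]
  unfold YY
  rw [← Finset.prod_pow]
  rfl

theorem t_DIR : S_DIR := by
  intro n M N β H hM hH hE
  obtain ⟨M', rfl⟩ : ∃ M', M = M' + 1 := ⟨M - 1, by omega⟩
  have hd : ((n : ℂ) + 1 + ((M' + 1 : ℕ) : ℂ)) ≠ 0 := by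
    have : ((n + 1 + (M' + 1) : ℕ) : ℂ) ≠ 0 := by
      rw [Nat.cast_ne_zero]; omega
    push_cast at this ⊢
    exact this
  set s₀ : ℂ := -((n : ℂ) + 1) / ((n : ℂ) + 1 + ((M' + 1 : ℕ) : ℂ)) with hs₀
  set r : ℂ := s₀ - N with hr
  have hds : ((n : ℂ) + 1 + ((M' + 1 : ℕ) : ℂ)) * s₀ = -((n : ℂ) + 1) := by
    rw [hs₀, mul_div_cancel₀ _ hd]
  have hdir : dir n (M' + 1) = YY n * LL n ^ (M' + 1) := rfl
  -- each term is in the kernel
  have hk : ∀ k, Lam r (dir n (M' + 1) * pderiv k (H k) +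
      C r * pderiv k (dir n (M' + 1)) * H k) = 0 := by
    intro k
    have e1 : dir n (M' + 1) * pderiv k (H k) + C r * pderiv k (dir n (M' + 1)) * H k =
        LL n ^ (M' + 1) * (YY n * pderiv k (H k) + C r * pderiv k (YY n) * H k) +
          (r * ((M' + 1 : ℕ) : ℂ)) • (LL n ^ M' * (YY n * H k)) := by
      rw [hdir, Derivation.leibniz, Derivation.leibniz_pow, pderiv_LL, smul_eq_C_mul, C_mul]
      simp only [smul_eq_mul, nsmul_eq_mul, mul_one, Nat.add_sub_cancel]
      have e2 : (C ((M' + 1 : ℕ) : ℂ) : MvPolynomial (Fin (n + 1)) ℂ) = ((M' + 1 : ℕ) : _) := by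
        rw [map_natCast]
      rw [e2]
      ring
    have hq1 : (YY n * pderiv k (H k) + C r * pderiv k (YY n) * H k).IsHomogeneous
        (n + 1 + (n + 1 + (M' + 1)) * N) := by
      apply IsHomogeneous.add
      · exact YY_hom.mul (hH k).pderiv
      · have h1 : (pderiv k (YY n)).IsHomogeneous n := YY_hom.pderiv
        have h2 := ((isHomogeneous_C (Fin (n + 1)) r).mul h1).mul (hH k)
        have e3 : 0 + n + ((n + 1 + (M' + 1)) * N + 1) = n + 1 + (n + 1 + (M' + 1)) * N := by ring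
        rwa [e3] at h2
    have hq2 : (YY n * H k).IsHomogeneous (n + 1 + ((n + 1 + (M' + 1)) * N + 1)) :=
      YY_hom.mul (hH k)
    rw [e1, map_add, map_smul, Lam_LL_pow r hq1, Lam_LL_pow r hq2, Lam_part, smul_eq_mul,
      Finset.prod_range_succ']
    have e4 : ∏ i ∈ Finset.range M', (((n + 1 + (n + 1 + (M' + 1)) * N : ℕ) : ℂ) + ((i + 1 : ℕ) : ℂ) +
        (n + 1) * r) = ∏ i ∈ Finset.range M', (((n + 1 + ((n + 1 + (M' + 1)) * N + 1) : ℕ) : ℂ) + i +
        (n + 1) * r) := by
      refine Finset.prod_congr rfl fun i _ => ?_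
      push_cast
      ring
    rw [e4]
    have e5 : ((n + 1 + (n + 1 + (M' + 1)) * N : ℕ) : ℂ) + ((0 : ℕ) : ℂ) + (n + 1) * r +
        r * ((M' + 1 : ℕ) : ℂ) = 0 := by
      have : ((n + 1 + (n + 1 + (M' + 1)) * N : ℕ) : ℂ) =
          (n : ℂ) + 1 + ((n : ℂ) + 1 + ((M' + 1 : ℕ) : ℂ)) * N := by push_cast; ring
      rw [this, hr]
      linear_combination hds
    linear_combination (∏ i ∈ Finset.range M', (((n + 1 + ((n + 1 + (M' + 1)) * N + 1) : ℕ) : ℂ) +
      i + (n + 1) * r)) * Lam r (YY n * H k) * e5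
  have h0 := congrArg (Lam r) hE
  rw [map_sum, Finset.sum_eq_zero fun k _ => hk k] at h0
  -- the value on the power
  have hpow : dir n (M' + 1) ^ (N + 1) = LL n ^ ((M' + 1) * (N + 1)) * YY n ^ (N + 1) := by
    rw [hdir, mul_pow, ← pow_mul, mul_comm]
  have hYh : (YY n ^ (N + 1)).IsHomogeneous ((n + 1) * (N + 1)) := YY_hom.pow _
  rw [C_mul', map_smul, smul_eq_mul, hpow, Lam_LL_pow r hYh, YY_pow, Lam_monomial, one_mul] at h0
  -- positivity
  have hreal : s₀ = ((-((n : ℝ) + 1) / ((n : ℝ) + 1 + ((M' + 1 : ℕ) : ℝ)) : ℝ) : ℂ) := by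
    rw [hs₀]; push_cast; ring
  set t : ℝ := -((n : ℝ) + 1) / ((n : ℝ) + 1 + ((M' + 1 : ℕ) : ℝ)) with ht
  have hn0 : (0 : ℝ) ≤ n := by positivity
  have hM0 : (0 : ℝ) < ((M' + 1 : ℕ) : ℝ) := by positivity
  have ht0 : t < 0 := by
    rw [ht]
    apply div_neg_of_neg_of_pos <;> linarith
  have ht1 : -1 < t := by
    rw [ht, lt_div_iff₀ (by linarith)]
    linarith
  have f1 : (∏ i ∈ Finset.range ((M' + 1) * (N + 1)), ((((n + 1) * (N + 1) : ℕ) : ℂ) + i +
      (n + 1) * r)) ≠ 0 := by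
    rw [Finset.prod_ne_zero_iff]
    intro i _ h
    have e6 : (((n + 1) * (N + 1) : ℕ) : ℂ) + i + (n + 1) * r =
        ((((n : ℝ) + 1) * (1 + t) + i : ℝ) : ℂ) := by
      rw [hr, hreal]; push_cast; ring
    rw [e6, Complex.ofReal_eq_zero] at h
    have : (0 : ℝ) ≤ i := by positivity
    have : 0 < ((n : ℝ) + 1) * (1 + t) := mul_pos (by linarith) (by linarith)
    linarith
  have f2 : lamv r (Finsupp.equivFunOnFinite.symm fun _ : Fin (n + 1) => N + 1) ≠ 0 := by
    unfold lamv
    rw [Finset.prod_ne_zero_iff]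
    intro i _
    rw [Finset.prod_ne_zero_iff]
    intro j hj h
    have hj' : j < N + 1 := Finset.mem_range.1 hj
    have e7 : r + (j : ℂ) = ((t - N + j : ℝ) : ℂ) := by
      rw [hr, hreal]; push_cast; ring
    rw [e7, Complex.ofReal_eq_zero] at h
    have : (j : ℝ) ≤ N := by exact_mod_cast Nat.lt_succ_iff.1 hj'
    linarith
  by_contra hβ
  exact (mul_ne_zero hβ (mul_ne_zero f1 f2)) h0.symm

end Pool.Agent.K1H68.RS

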