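import Pool.Agent.K1H20.RS.Stm
import Mathlib.LinearAlgebra.Lagrange

/-! Project RS, piece ROOT: the root `-(n + 1) / m`. -/

set_option autoImplicit false
set_option linter.dupNamespace false

namespace Pool.Agent.K1H68.RS

open MvPolynomial Pool.Agent.H628R4.TP Pool.Agent.K1H20.RS

/-! ### homogeneity -/

theorem coeff_pl {R : Type*} [CommRing R] {k : ℕ} (a : Fin k → R) (i : ℕ) :
    (pl a).coeff i = if h : i < k then a ⟨i, h⟩ else 0 := by
  unfold pl
  rw [Polynomial.finsetSum_coeff]
  simp only [Polynomial.coeff_C_mul, Polynomial.coeff_X_pow]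
  split_ifs with h
  · rw [Finset.sum_eq_single (⟨i, h⟩ : Fin k)]
    · simp
    · intro j _ hj
      have : ¬ (i = (j : ℕ)) := fun h' => hj (Fin.ext h'.symm)
      simp [this]
    · intro h'
      exact absurd (Finset.mem_univ _) h'
  · apply Finset.sum_eq_zero
    intro j _
    have : ¬ (i = (j : ℕ)) := fun h' => h (h' ▸ j.2)
    simp [this]

/-- the weights -/
abbrev wt (m n : ℕ) : Co m n → ℕ := Sum.elim (fun _ => 0) (fun _ => 1)

theorem RSC_hom (m n : ℕ) : IsWeightedHomogeneous (wt m n) (RSC m n) m := by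
  classical
  rw [RSC_eq]
  unfold rs Polynomial.resultant
  rw [Matrix.det_apply]
  apply IsWeightedHomogeneous.sum
  intro σ _
  have h1 : IsWeightedHomogeneous (wt m n)
      (∏ i : Fin (m + n), Polynomial.sylvester (pl fun i : Fin (m + 1) => (X (Sum.inl i) :
        MvPolynomial (Co m n) ℂ)) (pl fun j : Fin (n + 1) => (X (Sum.inr j) :
        MvPolynomial (Co m n) ℂ)) m n (σ i) i)
      (∑ i : Fin (m + n), (Fin.addCases (fun _ => 1) (fun _ => 0) i : ℕ)) := by
    apply IsWeightedHomogeneous.prod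
    intro j _
    unfold Polynomial.sylvester
    rw [Matrix.of_apply]
    induction j using Fin.addCases with
    | left j =>
      simp only [Fin.addCases_left]
      split_ifs with h
      · rw [coeff_pl]
        split_ifs with h'
        · exact isWeightedHomogeneous_X ℂ (wt m n) (Sum.inr _)
        · exact isWeightedHomogeneous_zero _ _ _
      · exact isWeightedHomogeneous_zero _ _ _
    | right j =>
      simp only [Fin.addCases_right]
      split_ifs with h
      · rw [coeff_pl]
        split_ifs with h'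
        · exact isWeightedHomogeneous_X ℂ (wt m n) (Sum.inl _)
        · exact isWeightedHomogeneous_zero _ _ _
      · exact isWeightedHomogeneous_zero _ _ _
  have h2 : (∑ i : Fin (m + n), (Fin.addCases (fun _ => 1) (fun _ => 0) i : ℕ)) = m := by
    rw [Fin.sum_univ_add]
    simp
  rw [h2] at h1
  rcases Int.units_eq_one_or (Equiv.Perm.sign σ) with h | h
  · rw [h, one_smul]; exact h1
  · rw [h, Units.neg_smul, one_smul]; exact h1.neg

/-! ### the substitution -/

section
variable {n : ℕ}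

/-- the nodes -/
noncomputable def nd (i : Fin (n + 1)) : ℂ := ((i : ℕ) : ℂ)

theorem nd_inj : Function.Injective (nd (n := n)) := by
  intro i j h
  unfold nd at h
  exact Fin.ext (by exact_mod_cast h)

/-- the Lagrange basis -/
noncomputable def lb (j : Fin (n + 1)) : Polynomial ℂ := Lagrange.basis Finset.univ nd j

theorem lb_deg (j : Fin (n + 1)) : (lb j).natDegree < n + 1 := by
  unfold lb
  rw [Lagrange.natDegree_basis nd_inj.injOn (Finset.mem_univ j), Finset.card_univ, Fintype.card_fin]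
  omega

theorem lb_self (j : Fin (n + 1)) : (lb j).eval (nd j) = 1 :=
  Lagrange.eval_basis_self nd_inj.injOn (Finset.mem_univ j)

theorem lb_ne {i j : Fin (n + 1)} (h : i ≠ j) : (lb i).eval (nd j) = 0 :=
  Lagrange.eval_basis_of_ne h (Finset.mem_univ j)

theorem lb_sum (k : Fin (n + 1)) :
    (Polynomial.X : Polynomial ℂ) ^ (k : ℕ) =
      ∑ j : Fin (n + 1), Polynomial.C (nd j ^ (k : ℕ)) * lb j := by
  have h1 : ((Polynomial.X : Polynomial ℂ) ^ (k : ℕ)).degree <
      (Finset.univ : Finset (Fin (n + 1))).card := by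
    rw [Polynomial.degree_X_pow, Finset.card_univ, Fintype.card_fin]
    exact_mod_cast k.2
  have h2 := Lagrange.eq_interpolate (v := nd (n := n)) nd_inj.injOn h1
  rw [Lagrange.interpolate_apply] at h2
  conv_lhs => rw [h2]
  refine Finset.sum_congr rfl fun j _ => ?_
  rw [Polynomial.eval_pow, Polynomial.eval_X]
  rfl

/-- the value at `n + 1` -/
noncomputable def lc (j : Fin (n + 1)) : ℂ := (lb j).eval ((n : ℂ) + 1)

theorem lc_ne (j : Fin (n + 1)) : lc j ≠ 0 := by
  unfold lc lb Lagrange.basis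
  rw [Polynomial.eval_prod, Finset.prod_ne_zero_iff]
  intro i hi
  have hij : i ≠ j := Finset.ne_of_mem_erase hi
  unfold Lagrange.basisDivisor
  rw [Polynomial.eval_mul, Polynomial.eval_C, Polynomial.eval_sub, Polynomial.eval_X,
    Polynomial.eval_C]
  apply mul_ne_zero
  · apply inv_ne_zero
    intro h
    exact hij (nd_inj (sub_eq_zero.1 h)).symm
  · intro h
    have h1 : ((n + 1 : ℕ) : ℂ) = ((i : ℕ) : ℂ) := by
      push_cast
      exact sub_eq_zero.1 h
    have h2 : n + 1 = (i : ℕ) := by exact_mod_cast h1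
    have := i.2
    omega

/-- the matrix of the substitution -/
noncomputable def bt (k j : Fin (n + 1)) : ℂ := (lc j)⁻¹ * (lb j).coeff k

/-- its inverse -/
noncomputable def ct (j k : Fin (n + 1)) : ℂ := lc j * nd j ^ (k : ℕ)

theorem ct_bt (i k : Fin (n + 1)) :
    ∑ j : Fin (n + 1), ct j k * bt i j = if i = k then 1 else 0 := by
  have h1 := congrArg (fun p : Polynomial ℂ => p.coeff i) (lb_sum k)
  simp only [Polynomial.coeff_X_pow, Polynomial.finsetSum_coeff, Polynomial.coeff_C_mul] at h1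
  have h2 : ∑ j : Fin (n + 1), ct j k * bt i j =
      ∑ j : Fin (n + 1), nd j ^ (k : ℕ) * (lb j).coeff i := by
    refine Finset.sum_congr rfl fun j _ => ?_
    unfold ct bt
    have := lc_ne j
    field_simp
  rw [h2, ← h1]
  by_cases h : i = k
  · rw [if_pos h, if_pos (by rw [h])]
  · rw [if_neg h, if_neg (fun h' => h (Fin.ext h'))]

/-- the substitution -/
noncomputable def BB : MvPolynomial (Fin (n + 1)) ℂ →ₐ[ℂ] MvPolynomial (Fin (n + 1)) ℂ :=
  aeval fun k => ∑ j, C (bt k j) * X j

theorem BB_X (k : Fin (n + 1)) : BB (X k) = ∑ j, C (bt k j) * X j := aeval_X _ _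

theorem pd_BB_X (i j : Fin (n + 1)) : pderiv j (BB (X i)) = C (bt i j) := by
  classical
  rw [BB_X, map_sum, Finset.sum_eq_single j]
  · rw [Derivation.leibniz, pderiv_X_self, pderiv_C]
    simp
  · intro k _ hk
    rw [Derivation.leibniz, pderiv_X_of_ne hk, pderiv_C]
    simp
  · intro h
    exact absurd (Finset.mem_univ j) h

/-- the chain rule -/
theorem BB_pd (k : Fin (n + 1)) (Q : MvPolynomial (Fin (n + 1)) ℂ) :
    BB (pderiv k Q) = ∑ j, C (ct j k) * pderiv j (BB Q) := by
  classical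
  induction Q using MvPolynomial.induction_on with
  | C c =>
    have h0 : BB (C c : MvPolynomial (Fin (n + 1)) ℂ) = C c := BB.commutes c
    rw [pderiv_C, map_zero, h0]
    exact (Finset.sum_eq_zero fun j _ => by rw [pderiv_C, mul_zero]).symm
  | add p q hp hq =>
    rw [map_add, map_add, map_add, hp, hq, ← Finset.sum_add_distrib]
    refine Finset.sum_congr rfl fun j _ => ?_
    rw [map_add, mul_add]
  | mul_X p i hp =>
    rw [Derivation.leibniz, smul_eq_mul, smul_eq_mul, map_add, map_mul, map_mul, hp, map_mul]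
    have h1 : ∀ j, C (ct j k) * pderiv j (BB p * BB (X i)) =
        BB p * (C (ct j k) * C (bt i j)) + BB (X i) * (C (ct j k) * pderiv j (BB p)) := by
      intro j
      rw [Derivation.leibniz, smul_eq_mul, smul_eq_mul, pd_BB_X]
      ring
    rw [Finset.sum_congr rfl fun j _ => h1 j, Finset.sum_add_distrib, ← Finset.mul_sum,
      ← Finset.mul_sum]
    congr 2
    have h2 : (∑ j, C (ct j k) * C (bt i j) : MvPolynomial (Fin (n + 1)) ℂ) =
        C (∑ j, ct j k * bt i j) := by
      rw [map_sum]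
      exact Finset.sum_congr rfl fun j _ => by rw [C_mul]
    rw [h2, ct_bt]
    by_cases h : i = k
    · subst h
      rw [if_pos rfl, pderiv_X_self, map_one, map_one]
    · rw [if_neg h, pderiv_X_of_ne h, map_zero, map_zero]

/-- the value of the generic polynomial -/
noncomputable def GG (n : ℕ) (ν : ℂ) : MvPolynomial (Fin (n + 1)) ℂ :=
  ∑ k : Fin (n + 1), C (ν ^ (k : ℕ)) * X k

theorem BB_GG (ν : ℂ) : BB (GG n ν) = ∑ j, C ((lc j)⁻¹ * (lb j).eval ν) * X j := by
  unfold GG
  rw [map_sum]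
  have h1 : ∀ k : Fin (n + 1), BB (C (ν ^ (k : ℕ)) * X k) =
      ∑ j, C (ν ^ (k : ℕ) * bt k j) * X j := by
    intro k
    have h0 : BB (C (ν ^ (k : ℕ)) : MvPolynomial (Fin (n + 1)) ℂ) = C (ν ^ (k : ℕ)) :=
      BB.commutes _
    rw [map_mul, h0, BB_X, Finset.mul_sum]
    exact Finset.sum_congr rfl fun j _ => by rw [C_mul, mul_assoc]
  rw [Finset.sum_congr rfl fun k _ => h1 k, Finset.sum_comm]
  refine Finset.sum_congr rfl fun j _ => ?_
  rw [← Finset.sum_mul, ← map_sum]
  congr 2
  rw [Polynomial.eval_eq_sum_range' (lb_deg j), Finset.sum_range, Finset.mul_sum]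
  refine Finset.sum_congr rfl fun k _ => ?_
  unfold bt
  ring

theorem BB_node (i : Fin (n + 1)) : BB (GG n (nd i)) = C ((lc i)⁻¹) * X i := by
  classical
  rw [BB_GG, Finset.sum_eq_single i]
  · rw [lb_self, mul_one]
  · intro j _ hj
    rw [lb_ne hj, mul_zero, map_zero, zero_mul]
  · intro h
    exact absurd (Finset.mem_univ i) h

theorem BB_last : BB (GG n ((n : ℂ) + 1)) = ∑ j, X j := by
  rw [BB_GG]
  refine Finset.sum_congr rfl fun j _ => ?_
  have h1 : (lc j)⁻¹ * (lb j).eval ((n : ℂ) + 1) = 1 := inv_mul_cancel₀ (lc_ne j)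
  rw [h1, map_one, one_mul]

theorem BB_hom {q : ℕ} {Q : MvPolynomial (Fin (n + 1)) ℂ} (hQ : Q.IsHomogeneous q) :
    (BB Q).IsHomogeneous q := by
  have h1 : ∀ k : Fin (n + 1), (∑ j, C (bt k j) * X j : MvPolynomial (Fin (n + 1)) ℂ).IsHomogeneous 1 := by
    intro k
    apply IsHomogeneous.sum
    intro j _
    have := (isHomogeneous_C (Fin (n + 1)) (bt k j)).mul (isHomogeneous_X ℂ j)
    simpa using this
  have h2 := hQ.aeval (fun k => ∑ j, C (bt k j) * X j) h1
  rw [one_mul] at h2
  exact h2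

/-! ### the specialisation -/

/-- the roots -/
noncomputable def rt (n i : ℕ) : ℂ := ((min i (n + 1) : ℕ) : ℂ)

/-- the special polynomial -/
noncomputable def f0 (n m : ℕ) : Polynomial ℂ :=
  ∏ i ∈ Finset.range m, (Polynomial.X - Polynomial.C (rt n i))

theorem f0_deg (n m : ℕ) : (f0 n m).natDegree = m := by
  unfold f0
  rw [Polynomial.natDegree_prod_of_monic _ _ fun i _ => Polynomial.monic_X_sub_C _]
  simp

theorem pl_coeff {k : ℕ} (p : Polynomial ℂ) (hp : p.natDegree < k) :
    (pl fun i : Fin k => p.coeff i) = p := by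
  unfold pl
  conv_rhs => rw [p.as_sum_range' k hp, Finset.sum_range]
  exact Finset.sum_congr rfl fun i _ => by rw [Polynomial.C_mul_X_pow_eq_monomial]

theorem sp_RSC (m : ℕ) : sp (fun i : Fin (m + 1) => (f0 n m).coeff i) (RSC m n) =
    ∏ i ∈ Finset.range m, GG n (rt n i) := by
  have h1 : sp (fun i : Fin (m + 1) => (f0 n m).coeff i) (RSC m n) =
      rs m n (Sum.elim (fun i : Fin (m + 1) => C ((f0 n m).coeff i)) X) := aeval_RSC m n _
  have h2 : (pl fun i : Fin (m + 1) => (C ((f0 n m).coeff i) : MvPolynomial (Fin (n + 1)) ℂ)) =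
      ∏ i ∈ Finset.range m, (Polynomial.X - Polynomial.C (C (rt n i))) := by
    rw [← pl_map (C : ℂ →+* MvPolynomial (Fin (n + 1)) ℂ) fun i : Fin (m + 1) => (f0 n m).coeff i,
      pl_coeff _ (by rw [f0_deg]; omega)]
    unfold f0
    rw [Polynomial.map_prod]
    exact Finset.prod_congr rfl fun i _ => by simp
  have hg : (pl fun j : Fin (n + 1) => (X j : MvPolynomial (Fin (n + 1)) ℂ)).natDegree ≤ n := by
    rw [Polynomial.natDegree_le_iff_coeff_eq_zero]
    intro N hN
    rw [coeff_pl, dif_neg (by omega)]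
  rw [h1]
  unfold rs
  simp only [Sum.elim_inl, Sum.elim_inr]
  rw [h2]
  have h3 : (∏ i ∈ Finset.range m, (Polynomial.X - Polynomial.C (C (rt n i)) :
      Polynomial (MvPolynomial (Fin (n + 1)) ℂ))).natDegree = m := by
    rw [Polynomial.natDegree_prod_of_monic _ _ fun i _ => Polynomial.monic_X_sub_C _]
    simp
  have h4 := Polynomial.resultant_prod_left (Finset.range m)
    (fun i => (Polynomial.X - Polynomial.C (C (rt n i)) :
      Polynomial (MvPolynomial (Fin (n + 1)) ℂ)))
    (pl fun j : Fin (n + 1) => (X j : MvPolynomial (Fin (n + 1)) ℂ)) n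
    (by simp) hg
  rw [h3] at h4
  rw [h4]
  refine Finset.prod_congr rfl fun i _ => ?_
  rw [Polynomial.natDegree_X_sub_C, Polynomial.resultant_X_sub_C_left _ _ _ hg]
  unfold pl GG
  rw [Polynomial.eval_finsetSum]
  refine Finset.sum_congr rfl fun k _ => ?_
  rw [Polynomial.eval_mul, Polynomial.eval_C, Polynomial.eval_pow, Polynomial.eval_X, C_pow]
  ring

theorem BB_sp (M : ℕ) : BB (sp (fun i : Fin (n + 1 + M + 1) => (f0 n (n + 1 + M)).coeff i)
    (RSC (n + 1 + M) n)) = C (∏ i : Fin (n + 1), (lc i)⁻¹) * dir n M := by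
  rw [sp_RSC, map_prod, Finset.prod_range_add]
  have h1 : ∏ i ∈ Finset.range (n + 1), BB (GG n (rt n i)) =
      C (∏ i : Fin (n + 1), (lc i)⁻¹) * ∏ i : Fin (n + 1), X i := by
    rw [Finset.prod_range, map_prod, ← Finset.prod_mul_distrib]
    refine Finset.prod_congr rfl fun i _ => ?_
    have : rt n i = nd i := by
      unfold rt nd
      rw [min_eq_left (by omega)]
    rw [this, BB_node]
  have h2 : ∏ i ∈ Finset.range M, BB (GG n (rt n (n + 1 + i))) = (∑ j : Fin (n + 1), X j) ^ M := by
    rw [← Finset.card_range M, ← Finset.prod_const, Finset.card_range]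
    refine Finset.prod_congr rfl fun i _ => ?_
    have : rt n (n + 1 + i) = (n : ℂ) + 1 := by
      unfold rt
      rw [min_eq_right (by omega)]
      push_cast
      rfl
    rw [this, BB_last]
  rw [h1, h2]
  unfold dir
  ring

end

theorem t_ROOT : S_ROOT := by
  classical
  intro hSP hD m n hm b hb
  obtain ⟨M, rfl⟩ : ∃ M, m = n + 1 + M := ⟨m - (n + 1), by omega⟩
  have hM : 1 ≤ M := by omega
  obtain ⟨N, H, hH, hE⟩ := hSP (Fin (n + 1 + M + 1)) (Fin (n + 1)) (n + 1 + M) (RSC (n + 1 + M) n)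
    (by omega) (RSC_hom (n + 1 + M) n) b hb (fun i => (f0 n (n + 1 + M)).coeff i)
    (-((n : ℂ) + 1) / ((n : ℂ) + 1 + M))
  set F0 := sp (fun i : Fin (n + 1 + M + 1) => (f0 n (n + 1 + M)).coeff i) (RSC (n + 1 + M) n)
    with hF0
  set c : ℂ := ∏ i : Fin (n + 1), (lc i)⁻¹ with hc
  have hc0 : c ≠ 0 := Finset.prod_ne_zero_iff.2 fun i _ => inv_ne_zero (lc_ne i)
  have hBF : BB F0 = C c * dir n M := BB_sp M
  set s : ℂ := -((n : ℂ) + 1) / ((n : ℂ) + 1 + M) with hs
  have hCc : (C c : MvPolynomial (Fin (n + 1)) ℂ) ≠ 0 := by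
    rw [Ne, C_eq_zero]; exact hc0
  -- transport of the identity
  have hE' := congrArg BB hE
  have hBC : ∀ z : ℂ, BB (C z : MvPolynomial (Fin (n + 1)) ℂ) = C z := fun z => BB.commutes z
  rw [map_sum, map_mul, map_pow, hBC, hBF] at hE'
  have h1 : ∀ k : Fin (n + 1), BB (F0 * pderiv k (H k) + C (s - N) * pderiv k F0 * H k) =
      ∑ j, C c * (dir n M * pderiv j (C (ct j k) * BB (H k)) +
        C (s - N) * pderiv j (dir n M) * (C (ct j k) * BB (H k))) := by
    intro k
    rw [map_add, map_mul, map_mul, map_mul, BB_pd, BB_pd, hBC, hBF, Finset.mul_sum,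
      Finset.mul_sum, Finset.sum_mul, ← Finset.sum_add_distrib]
    refine Finset.sum_congr rfl fun j _ => ?_
    have e1 : pderiv j (C c * dir n M) = C c * pderiv j (dir n M) := by
      rw [pderiv_C_mul]
    have e2 : pderiv j (C (ct j k) * BB (H k)) = C (ct j k) * pderiv j (BB (H k)) := by
      rw [pderiv_C_mul]
    rw [e1, e2]
    ring
  rw [Finset.sum_congr rfl fun k _ => h1 k, Finset.sum_comm] at hE'
  have h2 : ∑ j, (dir n M * pderiv j (∑ k, C (ct j k) * BB (H k)) +
      C (s - N) * pderiv j (dir n M) * ∑ k, C (ct j k) * BB (H k)) =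
      C (b.eval s * c ^ N) * dir n M ^ (N + 1) := by
    apply mul_left_cancel₀ hCc
    have e3 : C c * (C (b.eval s * c ^ N) * dir n M ^ (N + 1)) =
        C (b.eval s) * (C c * dir n M) ^ (N + 1) := by
      rw [mul_pow, C_mul, C_pow, pow_succ (C c)]
      ring
    rw [e3, ← hE', Finset.mul_sum]
    refine Finset.sum_congr rfl fun j _ => ?_
    rw [map_sum, Finset.mul_sum, Finset.mul_sum, ← Finset.sum_add_distrib, Finset.mul_sum]
  have h3 := hD n M N (b.eval s * c ^ N) (fun j => ∑ k, C (ct j k) * BB (H k)) hM (by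
    intro j
    apply IsHomogeneous.sum
    intro k _
    have := (isHomogeneous_C (Fin (n + 1)) (ct j k)).mul (BB_hom (hH k))
    rwa [zero_add] at this) h2
  have h4 : b.eval s = 0 := by
    rcases mul_eq_zero.1 h3 with h | h
    · exact h
    · exact absurd h (pow_ne_zero _ hc0)
  have h5 : -((n : ℂ) + 1) / ((n + 1 + M : ℕ) : ℂ) = s := by
    rw [hs]; push_cast; rfl
  rw [h5]
  exact h4

end Pool.Agent.K1H68.RS

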